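import Pool.Agent.H5.OR.Targets4
import Pool.Agent.H70.OR.KJ

/-!
# MP_e1fd52_al, board ors_modules, row QJ: characters with non-principal crossed homomorphisms
-/

set_option autoImplicit false

open scoped Classical

namespace Pool.Agent.H11.ORS

open ORg Pool.Agent.H70.OR.KJ

theorem br_zero_iff {m : ℤ} (hm : m ≠ 0) (ξ : ℂˣ) : br m ξ = 0 ↔ ξ ≠ 1 ∧ ξ ^ m = 1 := by
  unfold br
  by_cases hx : ξ = 1
  · rw [if_pos hx]
    constructor
    · intro h
      exfalso
      exact hm (Int.cast_eq_zero.1 h)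
    · rintro ⟨h, -⟩
      exact absurd hx h
  · rw [if_neg hx, div_eq_zero_iff]
    constructor
    · rintro (h | h)
      · refine ⟨hx, ?_⟩
        apply Units.ext
        rw [Units.val_zpow_eq_zpow_val, Units.val_one]
        linear_combination h
      · exact absurd h (sub_ne hx)
    · rintro ⟨-, h⟩
      left
      rw [← Units.val_zpow_eq_zpow_val, h, Units.val_one, sub_self]

theorem rel_iff' (m n : ℤ) (X A : Aff) (hA : X.m ^ m = A.m ^ n) :
    X ^ m = A ^ n ↔ br m X.m * X.b + (-br n A.m) * A.b = 0 := by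
  rw [aff_zpow, aff_zpow, Aff.ext_iff]
  constructor
  · rintro ⟨-, h⟩
    have h' : br m X.m * X.b = br n A.m * A.b := h
    linear_combination h'
  · intro h
    refine ⟨hA, ?_⟩
    change br m X.m * X.b = br n A.m * A.b
    linear_combination h

variable {m n : ℤ}

/-- the homomorphism given by a crossed homomorphism -/
noncomputable def crt (ρ : TP m n →* ℂˣ) (c : TP m n → ℂ)
    (hc : ∀ g h, c (g * h) = (ρ g : ℂ) * c h + c g) : TP m n →* Aff :=
  MonoidHom.mk' (fun g => ⟨ρ g, c g⟩) (by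
    intro g h
    refine Aff.ext ?_ ?_
    · rw [mul_m, map_mul]
    · rw [mul_b, hc])

theorem pf_QJ (QH : T_QH) : T_QJ := by
  intro m n ρ hm hn hρ
  obtain ⟨hrel, hex, hun⟩ := QH m n
  obtain ⟨ξ, hξ⟩ : ∃ ξ, ξ = ρ (tg true) := ⟨_, rfl⟩
  obtain ⟨α, hα⟩ : ∃ α, α = ρ (tg false) := ⟨_, rfl⟩
  have hαpq : ξ ^ m = α ^ n := by
    have h1 := congrArg ρ hrel
    rw [map_zpow, map_zpow, ← hξ, ← hα] at h1
    exact h1
  obtain ⟨P, hP⟩ : ∃ P : ℂ, P = br m ξ := ⟨_, rfl⟩
  obtain ⟨Q, hQ⟩ : ∃ Q : ℂ, Q = -br n α := ⟨_, rfl⟩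
  -- crossed homomorphisms and solutions
  have E1 : ∀ c : TP m n → ℂ, (∀ g h, c (g * h) = (ρ g : ℂ) * c h + c g) →
      P * c (tg true) + Q * c (tg false) = 0 := by
    intro c hc
    have h1 := congrArg (crt ρ c hc) hrel
    rw [map_zpow, map_zpow] at h1
    have h2 := (rel_iff' m n (crt ρ c hc (tg true)) (crt ρ c hc (tg false)) (by
      change (ρ (tg true)) ^ m = (ρ (tg false)) ^ n
      rw [← hα, ← hξ]
      exact hαpq)).1 h1
    have h3 : (crt ρ c hc (tg true)).m = ξ := hξ.symm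
    have h4 : (crt ρ c hc (tg false)).m = α := hα.symm
    rw [h3, h4, ← hP, ← hQ] at h2
    exact h2
  have E2 : ∀ u v : ℂ, P * u + Q * v = 0 → ∃ c : TP m n → ℂ,
      (∀ g h, c (g * h) = (ρ g : ℂ) * c h + c g) ∧ c (tg true) = u ∧ c (tg false) = v := by
    intro u v huv
    obtain ⟨f, hf1, hf2⟩ := hex Aff ⟨ξ, u⟩ ⟨α, v⟩ ((rel_iff' m n ⟨ξ, u⟩ ⟨α, v⟩ hαpq).2 (by
      rw [← hP, ← hQ]
      exact huv))
    have hm : (MonoidHom.mk' (fun g => (f g).m) (by
        intro g h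
        rw [map_mul, mul_m]) : TP m n →* ℂˣ) = ρ := by
      apply hun
      · change (f (tg true)).m = ρ (tg true)
        rw [hf1, ← hξ]
      · change (f (tg false)).m = ρ (tg false)
        rw [hf2, ← hα]
    have hm2 : ∀ g, (f g).m = ρ g := fun g => by
      rw [← hm]
      rfl
    refine ⟨fun g => (f g).b, ?_, ?_, ?_⟩
    · intro g h
      change (f (g * h)).b = (ρ g : ℂ) * (f h).b + (f g).b
      rw [map_mul, mul_b, hm2]
    · change (f (tg true)).b = u
      rw [hf1]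
    · change (f (tg false)).b = v
      rw [hf2]
  have E3 : ∀ c : TP m n → ℂ, (∀ g h, c (g * h) = (ρ g : ℂ) * c h + c g) → ∀ l : ℂ,
      c (tg true) = l * ((ξ : ℂ) - 1) → c (tg false) = l * ((α : ℂ) - 1) →
      ∀ g, c g = l * ((ρ g : ℂ) - 1) := by
    intro c hc l h1 h2 g
    have hd : ∀ g h : TP m n, l * ((ρ (g * h) : ℂ) - 1) =
        (ρ g : ℂ) * (l * ((ρ h : ℂ) - 1)) + l * ((ρ g : ℂ) - 1) := by
      intro g h
      rw [map_mul, Units.val_mul]
      ring
    have h3 : crt ρ c hc = crt ρ (fun g => l * ((ρ g : ℂ) - 1)) hd := by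
      apply hun
      · refine Aff.ext rfl ?_
        change c (tg true) = l * ((ρ (tg true) : ℂ) - 1)
        rw [h1, ← hξ]
      · refine Aff.ext rfl ?_
        change c (tg false) = l * ((ρ (tg false) : ℂ) - 1)
        rw [h2, ← hα]
    have h4 := congrArg Aff.b (DFunLike.congr_fun h3 g)
    exact h4
  have hne : (ξ : ℂ) - 1 ≠ 0 ∨ (α : ℂ) - 1 ≠ 0 := by
    by_contra hc
    rw [not_or, not_not, not_not] at hc
    apply hρ
    apply hun
    · rw [← hξ, MonoidHom.one_apply]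
      apply Units.ext
      rw [Units.val_one]
      linear_combination hc.1
    · rw [← hα, MonoidHom.one_apply]
      apply Units.ext
      rw [Units.val_one]
      linear_combination hc.2
  have hpr : P * ((ξ : ℂ) - 1) + Q * ((α : ℂ) - 1) = 0 := by
    have h1 := E1 (fun g => (ρ g : ℂ) - 1) (by
      intro g h
      rw [map_mul, Units.val_mul]
      ring)
    rw [← hξ, ← hα] at h1
    exact h1
  have key : Jmp ρ ↔ P = 0 ∧ Q = 0 := by
    constructor
    · rintro ⟨c, hc, hnp⟩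
      by_contra hPQ
      rw [not_and_or] at hPQ
      obtain ⟨l, hl1, hl2⟩ := lin2 P Q (c (tg true)) (c (tg false)) ((ξ : ℂ) - 1) ((α : ℂ) - 1)
        hPQ hne (E1 c hc) hpr
      exact hnp ⟨l, E3 c hc l hl1 hl2⟩
    · rintro ⟨hP0, hQ0⟩
      obtain ⟨u, v, huv⟩ : ∃ u v : ℂ, ¬ ∃ l : ℂ, u = l * ((ξ : ℂ) - 1) ∧
          v = l * ((α : ℂ) - 1) := by
        rcases hne with h | h
        · refine ⟨0, 1, ?_⟩
          rintro ⟨l, h1, h2⟩
          have h3 : l = 0 := (mul_eq_zero.1 h1.symm).resolve_right h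
          rw [h3, zero_mul] at h2
          exact one_ne_zero h2
        · refine ⟨1, 0, ?_⟩
          rintro ⟨l, h1, h2⟩
          have h3 : l = 0 := (mul_eq_zero.1 h2.symm).resolve_right h
          rw [h3, zero_mul] at h1
          exact one_ne_zero h1
      obtain ⟨c, hc, hc1, hc2⟩ := E2 u v (by rw [hP0, hQ0]; ring)
      refine ⟨c, hc, ?_⟩
      rintro ⟨l, hl⟩
      apply huv
      refine ⟨l, ?_, ?_⟩
      · rw [← hc1, hl, hξ]
      · rw [← hc2, hl, hα]
  rw [key, ← hξ, ← hα, hP, hQ, neg_eq_zero, br_zero_iff hm, br_zero_iff hn]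
  constructor
  · rintro ⟨⟨h1, h2⟩, h3, h4⟩
    exact ⟨h2, h1, h4, h3⟩
  · rintro ⟨h1, h2, h3, h4⟩
    exact ⟨⟨h2, h1⟩, h4, h3⟩

end Pool.Agent.H11.ORS
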